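import Mathlib

/-!
# Extended promotion on the labelings of a finite poset: definitions

`n` is the number of elements of the finite poset `P`. A labeling is a bijection `L : P → {1, …, n}`,
given here as an injective function with values between `1` and `n`.
-/

set_option autoImplicit false

namespace Pool.Agent.H68.EP

variable {P : Type*} [Fintype P] [PartialOrder P]

/-- `L` is a labeling: a bijection from `P` onto `{1, …, n}`, `n = |P|`. -/
def IsLabeling (L : P → ℕ) : Prop :=
  Function.Injective L ∧ ∀ x, 1 ≤ L x ∧ L x ≤ Fintype.card P

/-- `L` is a linear extension: a labeling with `L x < L y` whenever `x < y`. -/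
def IsLinExt (L : P → ℕ) : Prop :=
  IsLabeling L ∧ ∀ x y : P, x < y → L x < L y

omit [Fintype P] in
/-- The elements of the promotion chain `v₁ < v₂ < …` of `L`: `v₁` has the label `1`, and the
element after `x` is the `L`-successor of `x`, the element above `x` with the smallest label. -/
inductive InChain (L : P → ℕ) : P → Prop
  | start {x : P} : L x = 1 → InChain L x
  | step {x y : P} : InChain L x → x < y → (∀ z, x < z → L y ≤ L z) → InChain L y

open Classical in
/-- Extended promotion: outside of the promotion chain the label drops by one; on the chain `x` gets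
the label of its `L`-successor (the least label of the elements above `x`) minus one, and the last
element of the chain, which is maximal, gets the label `n`. -/
noncomputable def promo (L : P → ℕ) : P → ℕ := fun x =>
  if InChain L x then
    (if ∃ y, x < y then sInf {m : ℕ | ∃ y, x < y ∧ L y = m} - 1 else Fintype.card P)
  else L x - 1

/-- `a_k(P)`: the number of the labelings `L` of `P` with `∂^k L` a linear extension. -/
noncomputable def sortedCount (P : Type*) [Fintype P] [PartialOrder P] (k : ℕ) : ℕ :=
  {L : P → ℕ | IsLabeling L ∧ IsLinExt (promo^[k] L)}.ncard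

/-- `â_0 = a_0` and `â_k = a_k - a_{k-1}` for `k ≥ 1`. -/
noncomputable def profile (P : Type*) [Fintype P] [PartialOrder P] (k : ℕ) : ℤ :=
  if k = 0 then (sortedCount P 0 : ℤ) else (sortedCount P k : ℤ) - sortedCount P (k - 1)

/-- The sequence `b_0, …, b_{n-1}` is unimodal: `b_0 ≤ … ≤ b_j ≥ … ≥ b_{n-1}` for some `j`. -/
def Unimodal (b : ℕ → ℤ) (n : ℕ) : Prop :=
  ∃ j, j < n ∧ (∀ i, i + 1 ≤ j → b i ≤ b (i + 1)) ∧ ∀ i, j ≤ i → i + 1 < n → b (i + 1) ≤ b i

end Pool.Agent.H68.EP
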